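import Pool.Agent.TH679.PL.Defs
import Pool.Agent.H564R3.PW.Chain

/-!
The upper bound: column by column
-/

set_option autoImplicit false

namespace Pool.Agent.TH679.PL

open Finset
open Pool.Agent.H564R3.PW (Instr runs exec L2_P L2_P_add L2_P_one L2_W L2_path)

variable {R : Type} [CommSemiring R] {T m : ℕ}

/-- the weights of all pairs -/
noncomputable def ext (w : Edge T m → R) (c : ℕ) (u v : Fin m) : R :=
  if h : ∃ _ : c < T, Ok c u v then w ⟨(⟨c, h.choose⟩, u, v), h.choose_spec⟩ else 0

theorem ext_edge (w : Edge T m → R) (e : Edge T m) : ext w e.1.1.val e.1.2.1 e.1.2.2 = w e := by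
  unfold ext
  rw [dif_pos ⟨e.1.1.2, e.2⟩]

theorem ext_ne (w : Edge T m → R) {c : ℕ} {u v : Fin m} (h : ¬ Ok c u v) : ext w c u v = 0 := by
  unfold ext
  rw [dif_neg]
  rintro ⟨_, h1⟩
  exact h h1

theorem pathSum_eq (w : Edge T m → R) :
    pathSum w = ∑ α : Fin m, ∑ β : Fin m, L2_P (ext w) T 0 α β := by
  have h1 := L2_path (R := R) (ext w) T 0 (fun _ => 1)
  simp only [one_mul] at h1
  rw [← h1]
  have h2 : ∑ γ : Fin (T + 1) → Fin m, L2_W (ext w) T 0 γ =
      ∑ γ ∈ univ.filter (fun γ : Fin (T + 1) → Fin m =>
        ∀ i : Fin T, Ok i.val (γ i.castSucc) (γ i.succ)), L2_W (ext w) T 0 γ := by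
    rw [sum_filter]
    refine sum_congr rfl fun γ _ => ?_
    split_ifs with h
    · rfl
    · push Not at h
      obtain ⟨i, hi⟩ := h
      unfold L2_W
      refine prod_eq_zero (mem_univ i) ?_
      rw [zero_add]
      exact ext_ne w hi
  rw [h2, Finset.sum_subtype (p := fun γ : Fin (T + 1) → Fin m =>
    ∀ i : Fin T, Ok i.val (γ i.castSucc) (γ i.succ)) _ (fun x => by simp)]
  unfold pathSum
  refine sum_congr rfl fun φ _ => ?_
  unfold L2_W
  refine prod_congr rfl fun i _ => ?_
  rw [zero_add]
  exact (ext_edge w (pe φ i)).symm

/-- the values at column `k` -/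
noncomputable def dv (w : Edge T m → R) (k : ℕ) (v : Fin m) : R :=
  ∑ α : Fin m, L2_P (ext w) k 0 α v

theorem dv_zero (w : Edge T m → R) (v : Fin m) : dv w 0 v = 1 := by
  unfold dv
  simp [L2_P]

theorem dv_succ (w : Edge T m → R) (k : ℕ) (v : Fin m) :
    dv w (k + 1) v = ∑ u : Fin m, dv w k u * ext w k u v := by
  unfold dv
  simp_rw [L2_P_add, sum_mul, zero_add, L2_P_one]
  rw [sum_comm]

/-- the horizontal edge -/
def hedge (k : Fin T) (v : Fin m) : Edge T m := ⟨(k, v, v), Or.inl rfl⟩

/-- the other edges which lead to the vertex `(k + 1, v)` -/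
def preds (k : Fin T) (v : Fin m) : List (Edge T m) :=
  if h : k.val % 2 = 0 ∧ 1 ≤ v.val then
    [⟨(k, ⟨v.val - 1, by have := v.2; omega⟩, v), Or.inr (Or.inl ⟨h.1, by
      show v.val = v.val - 1 + 1
      omega⟩)⟩]
  else if h : k.val % 2 = 1 ∧ v.val + 1 < m then
    [⟨(k, ⟨v.val + 1, h.2⟩, v), Or.inr (Or.inr ⟨h.1, rfl⟩)⟩]
  else []

theorem preds_cases (k : Fin T) (v : Fin m) :
    (preds k v = [] ∧ ∀ u, Ok k.val u v → u = v) ∨
    ∃ e : Edge T m, preds k v = [e] ∧ e.1.1 = k ∧ e.1.2.2 = v ∧ e.1.2.1 ≠ v ∧
      (∀ u, Ok k.val u v → u = v ∨ u = e.1.2.1) ∧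
      ((k.val % 2 = 0 ∧ e.1.2.1.val + 1 = v.val) ∨ (k.val % 2 = 1 ∧ e.1.2.1.val = v.val + 1)) := by
  unfold preds
  split_ifs with h h'
  · right
    refine ⟨_, rfl, rfl, rfl, ?_, ?_, ?_⟩
    · intro h1
      have := congrArg Fin.val h1
      simp only at this
      omega
    · intro u hu
      unfold Ok at hu
      rcases hu with hu | ⟨_, hu⟩ | ⟨hu1, _⟩
      · exact Or.inl (Fin.ext hu.symm)
      · right
        apply Fin.ext
        show u.val = v.val - 1
        omega
      · omega
    · left
      refine ⟨h.1, ?_⟩
      show v.val - 1 + 1 = v.val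
      omega
  · right
    refine ⟨_, rfl, rfl, rfl, ?_, ?_, ?_⟩
    · intro h1
      have := congrArg Fin.val h1
      simp only at this
      omega
    · intro u hu
      unfold Ok at hu
      rcases hu with hu | ⟨hu1, _⟩ | ⟨_, hu⟩
      · exact Or.inl (Fin.ext hu.symm)
      · omega
      · right
        apply Fin.ext
        exact hu
    · right
      exact ⟨h'.1, rfl⟩
  · left
    refine ⟨rfl, fun u hu => ?_⟩
    unfold Ok at hu
    have := u.2
    have := v.2
    rcases hu with hu | ⟨hu1, hu⟩ | ⟨hu1, hu⟩
    · exact Fin.ext hu.symm
    · exfalso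
      apply h
      omega
    · exfalso
      apply h'
      omega

theorem preds_tail {k : Fin T} {v : Fin m} {e : Edge T m} (he : e ∈ preds k v) :
    e.1.2.1 ≠ v ∧
      ((k.val % 2 = 0 ∧ e.1.2.1.val + 1 = v.val) ∨ (k.val % 2 = 1 ∧ e.1.2.1.val = v.val + 1)) := by
  rcases preds_cases k v with ⟨h, _⟩ | ⟨e', h, _, _, h3, _, h5⟩
  · rw [h] at he
    exact absurd he List.not_mem_nil
  · rw [h, List.mem_singleton] at he
    subst he
    exact ⟨h3, h5⟩

/-- the instructions for the vertex `(k + 1, v)` -/
def vprog (R : Type) [CommSemiring R] (k : Fin T) (v : Fin m) :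
    List (Instr R (Edge T m) (Option (Fin m))) :=
  [Instr.load none (hedge k v), Instr.mul (some v) (some v) none] ++
    (preds k v).flatMap fun e =>
      [Instr.load none e, Instr.mul none none (some e.1.2.1), Instr.add (some v) (some v) none]

theorem vprog_length (k : Fin T) (v : Fin m) : (vprog R k v).length ≤ 5 := by
  unfold vprog
  rcases preds_cases k v with ⟨h, _⟩ | ⟨e', h, _⟩ <;> rw [h] <;> simp

theorem runs_append' {X ρ : Type} [DecidableEq ρ] (w : X → R) (p q : List (Instr R X ρ))
    (V : ρ → R) : runs w (p ++ q) V = runs w q (runs w p V) := by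
  unfold runs
  rw [List.foldl_append]

theorem vprog_run (w : Edge T m → R) (k : Fin T) (v : Fin m) (V : Option (Fin m) → R) :
    (∀ u, u ≠ v → runs w (vprog R k v) V (some u) = V (some u)) ∧
    (V (some v) = dv w k.val v → (∀ e ∈ preds k v, V (some e.1.2.1) = dv w k.val e.1.2.1) →
      runs w (vprog R k v) V (some v) = dv w (k.val + 1) v) := by
  classical
  rcases preds_cases k v with ⟨h, hu⟩ | ⟨e, h, he1, he2, he3, hu, _⟩
  · have h1 : runs w (vprog R k v) V = Function.update (Function.update V none (w (hedge k v)))
        (some v) (V (some v) * w (hedge k v)) := by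
      unfold vprog
      rw [h]
      simp only [List.flatMap_nil, List.append_nil]
      unfold runs
      simp only [List.foldl_cons, List.foldl_nil, Instr.run]
      rw [Function.update_self, Function.update_of_ne (Option.some_ne_none v)]
    constructor
    · intro u huv
      rw [h1, Function.update_of_ne (fun h => huv (Option.some_injective _ h)),
        Function.update_of_ne (Option.some_ne_none u)]
    · intro hV _
      rw [h1, Function.update_self, hV, dv_succ, Finset.sum_eq_single v]
      · congr 1
        exact (ext_edge w (hedge k v)).symm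
      · intro u _ huv
        rw [ext_ne w (fun h => huv (hu u h)), mul_zero]
      · intro h; exact absurd (mem_univ _) h
  · have h1 : ∀ x, runs w (vprog R k v) V x =
        if x = some v then V (some v) * w (hedge k v) + w e * V (some e.1.2.1)
        else if x = none then w e * V (some e.1.2.1) else V x := by
      intro x
      unfold vprog
      rw [h]
      simp only [List.flatMap_cons, List.flatMap_nil, List.append_nil, List.cons_append,
        List.nil_append]
      unfold runs
      simp only [List.foldl_cons, List.foldl_nil, Instr.run]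
      have n1 : (some v : Option (Fin m)) ≠ none := Option.some_ne_none v
      have n2 : (some e.1.2.1 : Option (Fin m)) ≠ none := Option.some_ne_none _
      have n3 : (some e.1.2.1 : Option (Fin m)) ≠ some v := fun h =>
        he3 (Option.some_injective _ h)
      simp only [Function.update_apply, n1, n2, n3, n1.symm, if_true, if_false]
      by_cases h5 : x = some v
      · rw [if_pos h5, if_pos h5]
      · rw [if_neg h5, if_neg h5]
        by_cases h6 : x = none
        · simp only [if_pos h6, if_neg h5]
        · simp only [if_neg h6, if_neg h5]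
    constructor
    · intro u huv
      rw [h1, if_neg (fun h => huv (Option.some_injective _ h)),
        if_neg (Option.some_ne_none u)]
    · intro hV hpred
      rw [h1, if_pos rfl, hV, hpred e (by rw [h]; exact List.mem_singleton_self _), dv_succ]
      have h2 : ∀ u ∈ (univ : Finset (Fin m)), u ∉ ({v, e.1.2.1} : Finset (Fin m)) →
          dv w k.val u * ext w k.val u v = 0 := by
        intro u _ hu'
        rw [ext_ne w (fun h => ?_), mul_zero]
        rw [mem_insert, mem_singleton] at hu'
        exact hu' (hu u h)
      rw [← Finset.sum_subset (subset_univ _) h2, Finset.sum_pair (Ne.symm he3)]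
      congr 1
      · congr 1
        exact (ext_edge w (hedge k v)).symm
      · have h3 := ext_edge w e
        rw [he1, he2] at h3
        rw [h3, mul_comm]

/-- the instructions for several vertices of a column -/
theorem list_run (w : Edge T m → R) (k : Fin T) : ∀ (l : List (Fin m)), l.Nodup →
    l.Pairwise (fun v v' => ∀ e ∈ preds k v', e.1.2.1 ≠ v) →
    ∀ V : Option (Fin m) → R, (∀ v ∈ l, V (some v) = dv w k.val v) →
      (∀ v ∈ l, ∀ e ∈ preds k v, V (some e.1.2.1) = dv w k.val e.1.2.1) →
      (∀ v ∈ l, runs w (l.flatMap (vprog R k)) V (some v) = dv w (k.val + 1) v) ∧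
      ∀ u, u ∉ l → runs w (l.flatMap (vprog R k)) V (some u) = V (some u) := by
  intro l
  induction l with
  | nil =>
    intro _ _ V _ _
    exact ⟨fun v hv => absurd hv List.not_mem_nil, fun _ _ => rfl⟩
  | cons v l ih =>
    intro hnd hpw V hV hV'
    rw [List.nodup_cons] at hnd
    rw [List.pairwise_cons] at hpw
    rw [List.flatMap_cons, runs_append']
    obtain ⟨g1, g2⟩ := vprog_run w k v V
    have g3 := g2 (hV v List.mem_cons_self) (hV' v List.mem_cons_self)
    set V₁ := runs w (vprog R k v) V
    obtain ⟨k1, k2⟩ := ih hnd.2 hpw.2 V₁ (by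
        intro v' hv'
        have h1 : v' ≠ v := fun h => hnd.1 (h ▸ hv')
        rw [g1 v' h1]
        exact hV v' (List.mem_cons_of_mem _ hv')) (by
        intro v' hv' e he
        rw [g1 _ (hpw.1 v' hv' e he)]
        exact hV' v' (List.mem_cons_of_mem _ hv') e he)
    constructor
    · intro v' hv'
      by_cases h1 : v' ∈ l
      · exact k1 v' h1
      · have h2 : v' = v := by
          rcases List.mem_cons.1 hv' with h | h
          · exact h
          · exact absurd h h1
        rw [k2 v' h1, h2]
        exact g3
    · intro u hu
      rw [List.mem_cons, not_or] at hu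
      rw [k2 u hu.2, g1 u hu.1]

/-- the order in which the vertices of a column are treated -/
def ord (m : ℕ) (k : ℕ) : List (Fin m) :=
  if k % 2 = 0 then (List.finRange m).reverse else List.finRange m

theorem mem_ord (k : ℕ) (v : Fin m) : v ∈ ord m k := by
  unfold ord
  split_ifs
  · rw [List.mem_reverse]; exact List.mem_finRange v
  · exact List.mem_finRange v

theorem ord_length (k : ℕ) : (ord m k).length = m := by
  unfold ord
  split_ifs
  · rw [List.length_reverse, List.length_finRange]
  · exact List.length_finRange

theorem ord_nodup (k : ℕ) : (ord m k).Nodup := by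
  unfold ord
  split_ifs
  · exact List.nodup_reverse.2 (List.nodup_finRange m)
  · exact List.nodup_finRange m

theorem ord_pairwise (k : Fin T) :
    (ord m k.val).Pairwise (fun v v' => ∀ e ∈ preds k v', e.1.2.1 ≠ v) := by
  unfold ord
  split_ifs with h
  · rw [List.pairwise_reverse]
    refine (List.pairwise_lt_finRange m).imp ?_
    intro v' v hlt e he heq
    have h1 := (preds_tail he).2
    have h2 : v'.val < v.val := hlt
    rw [heq] at h1
    omega
  · refine (List.pairwise_lt_finRange m).imp ?_
    intro v v' hlt e he heq
    have h1 := (preds_tail he).2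
    have h2 : v.val < v'.val := hlt
    rw [heq] at h1
    omega

/-- the instructions for column `k + 1` -/
def stage (R : Type) [CommSemiring R] (k : Fin T) :
    List (Instr R (Edge T m) (Option (Fin m))) :=
  (ord m k.val).flatMap (vprog R k)

theorem stage_run (w : Edge T m → R) (k : Fin T) (V : Option (Fin m) → R)
    (hV : ∀ v, V (some v) = dv w k.val v) (v : Fin m) :
    runs w (stage R k) V (some v) = dv w (k.val + 1) v :=
  (list_run w k (ord m k.val) (ord_nodup _) (ord_pairwise k) V (fun v _ => hV v)
    (fun _ _ _ _ => hV _)).1 v (mem_ord _ _)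

theorem flatMap_length_le {α β : Type} (f : α → List β) (c : ℕ) (h : ∀ a, (f a).length ≤ c)
    (l : List α) : (l.flatMap f).length ≤ l.length * c := by
  induction l with
  | nil => simp
  | cons a l ih =>
    rw [List.flatMap_cons, List.length_append, List.length_cons]
    have := h a
    calc (f a).length + (l.flatMap f).length ≤ c + l.length * c := Nat.add_le_add this ih
      _ = (l.length + 1) * c := by ring

theorem stage_length (k : Fin T) : (stage (m := m) R k).length ≤ m * 5 := by
  unfold stage
  have h := flatMap_length_le (vprog R k) 5 (vprog_length k) (ord m k.val)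
  rwa [ord_length] at h

/-- the first registers -/
def initp (R : Type) [CommSemiring R] (T m : ℕ) : List (Instr R (Edge T m) (Option (Fin m))) :=
  (List.finRange m).map fun v => Instr.const (some v) 1

theorem initp_run (w : Edge T m → R) : ∀ (l : List (Fin m)) (V : Option (Fin m) → R) (v : Fin m),
    (v ∈ l ∨ V (some v) = 1) →
      runs w (l.map fun v => (Instr.const (some v) 1 : Instr R (Edge T m) (Option (Fin m)))) V
        (some v) = 1 := by
  intro l
  induction l with
  | nil =>
    intro V v hv
    rcases hv with hv | hv
    · exact absurd hv List.not_mem_nil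
    · exact hv
  | cons u l ih =>
    intro V v hv
    rw [List.map_cons]
    show runs w (l.map _) (Function.update V (some u) 1) (some v) = 1
    refine ih _ v ?_
    by_cases h : v = u
    · right
      rw [h, Function.update_self]
    · rcases hv with hv | hv
      · rcases List.mem_cons.1 hv with h1 | h1
        · exact absurd h1 h
        · exact Or.inl h1
      · right
        rw [Function.update_of_ne (fun h' => h (Option.some_injective _ h'))]
        exact hv

/-- the first `k` columns -/
def prog (R : Type) [CommSemiring R] (T m : ℕ) : ℕ → List (Instr R (Edge T m) (Option (Fin m)))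
  | 0 => initp R T m
  | k + 1 => prog R T m k ++ (if h : k < T then stage R ⟨k, h⟩ else [])

theorem prog_run (w : Edge T m → R) : ∀ k ≤ T, ∀ v : Fin m,
    exec w (prog R T m k) (some v) = dv w k v := by
  intro k
  induction k with
  | zero =>
    intro _ v
    rw [dv_zero]
    exact initp_run w (List.finRange m) _ v (Or.inl (List.mem_finRange v))
  | succ k ih =>
    intro hk v
    show exec w (prog R T m k ++ _) (some v) = _
    rw [dif_pos (show k < T by omega)]
    unfold exec
    rw [runs_append']
    exact stage_run w ⟨k, by omega⟩ _ (fun v => ih (by omega) v) v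

theorem prog_length : ∀ k, (prog R T m k).length ≤ m + k * (m * 5) := by
  intro k
  induction k with
  | zero =>
    show (initp R T m).length ≤ _
    unfold initp
    rw [List.length_map, List.length_finRange]
    omega
  | succ k ih =>
    show (prog R T m k ++ _).length ≤ _
    rw [List.length_append]
    split_ifs with h
    · have h1 := stage_length (R := R) (m := m) (⟨k, h⟩ : Fin T)
      calc _ ≤ (m + k * (m * 5)) + m * 5 := Nat.add_le_add ih h1
        _ = m + (k + 1) * (m * 5) := by ring
    · rw [List.length_nil]
      nlinarith

/-- the sum of the registers -/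
def sump (R : Type) [CommSemiring R] (T m : ℕ) : List (Instr R (Edge T m) (Option (Fin m))) :=
  Instr.const none 0 :: (List.finRange m).map fun v => Instr.add none none (some v)

theorem sump_run (w : Edge T m → R) : ∀ (l : List (Fin m)) (V : Option (Fin m) → R),
    runs w (l.map fun v => (Instr.add none none (some v) : Instr R (Edge T m) (Option (Fin m)))) V
        none = V none + (l.map fun v => V (some v)).sum := by
  intro l
  induction l with
  | nil => intro V; simp [runs]
  | cons u l ih =>
    intro V
    rw [List.map_cons]
    show runs w (l.map _) (Function.update V none (V none + V (some u))) none = _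
    rw [ih, Function.update_self, List.map_cons, List.sum_cons, add_assoc]
    congr 2

/-- With `m + 1` registers one can go column by column. -/
theorem upper (R : Type) [CommSemiring R] (T m : ℕ) :
    ∃ p : List (Instr R (Edge T m) (Option (Fin m))), p.length ≤ 5 * (T * m) + 2 * m + 1 ∧
      ∀ w : Edge T m → R, exec w p none = pathSum w := by
  refine ⟨prog R T m T ++ sump R T m, ?_, fun w => ?_⟩
  · rw [List.length_append]
    have h1 := prog_length (R := R) (T := T) (m := m) T
    have h2 : (sump R T m).length = m + 1 := by
      unfold sump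
      rw [List.length_cons, List.length_map, List.length_finRange]
    rw [h2]
    calc _ ≤ (m + T * (m * 5)) + (m + 1) := Nat.add_le_add_right h1 _
      _ = _ := by ring
  · unfold exec
    rw [runs_append']
    show runs w ((List.finRange m).map _) (Function.update (exec w (prog R T m T)) none 0) none = _
    rw [sump_run, Function.update_self, zero_add, pathSum_eq, sum_comm, Fin.sum_univ_def]
    congr 1
    refine List.map_congr_left fun v _ => ?_
    rw [Function.update_of_ne (Option.some_ne_none v)]
    exact prog_run w T le_rfl v

end Pool.Agent.TH679.PL
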